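import Pool.Agent.H84.T4.N2Def
import Pool.Agent.H9.TC.F2

/-!
Project TM4 (MP_b6022c_nt), row N2, case B: Weyl's inequality (W2) on short blocks.
-/

set_option autoImplicit false

namespace Pool.Agent.H87.T4

open Finset Pool.Agent.H9.TC Pool.Agent.H20.TM Pool.Agent.H20.T4 Pool.Agent.H84.T4

/-- Splitting a sum into blocks. -/
theorem sum_blocks (A B : ℕ) (F : ℕ → ℂ) :
    ∑ b ∈ range (A * B), F b = ∑ i ∈ range A, ∑ j ∈ range B, F (i * B + j) := by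
  induction A with
  | zero => simp
  | succ A ih => rw [Nat.succ_mul, Finset.sum_range_add, ih, sum_range_succ]

theorem nn_of_not_small {v : ℕ} {W x : ℤ} (h : ¬ small v W x) :
    (W : ℝ) / 2 ^ v < nn ((x : ℝ) / 2 ^ v) := by
  by_contra hc
  push Not at hc
  apply h
  refine ⟨x - 2 ^ v * round ((x : ℝ) / 2 ^ v), ?_, ⟨round ((x : ℝ) / 2 ^ v), by ring⟩⟩
  have h2 : (0 : ℝ) < 2 ^ v := by positivity
  have : |(x : ℝ) - 2 ^ v * round ((x : ℝ) / 2 ^ v)| ≤ W := by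
    unfold nn at hc
    have e : (x : ℝ) - 2 ^ v * round ((x : ℝ) / 2 ^ v) =
        2 ^ v * ((x : ℝ) / 2 ^ v - round ((x : ℝ) / 2 ^ v)) := by
      field_simp
    rw [e, abs_mul, abs_of_pos h2]
    rw [le_div_iff₀ h2] at hc
    linarith
  exact_mod_cast this

theorem ee_sub_le (x y : ℝ) : ‖ee (x + y) - ee x‖ ≤ 7 * |y| := by
  rw [f2_ee_add]
  have : ee x * ee y - ee x = ee x * (ee y - 1) := by ring
  rw [this, norm_mul, f2_norm_ee, one_mul, f2_sin]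
  have h1 : |Real.sin (Real.pi * y)| ≤ |Real.pi * y| := Real.abs_sin_le_abs
  rw [abs_mul, abs_of_pos Real.pi_pos] at h1
  have h2 := Real.pi_lt_d2
  nlinarith [abs_nonneg y]

theorem slo_block {q : ℕ} (c : ℕ) (d e f r : Fin q → ℤ) (n : ℤ) (s1 B s : ℕ) (i : Fin q) :
    slo c d e f r n (s1 * B + s) i = slo c d e f r (n + s1 * B) s i := by
  unfold slo
  congr 1
  push_cast
  ring

theorem slo_real {q : ℕ} (c : ℕ) (d e f r : Fin q → ℤ) (n : ℤ) (s : ℕ) (i : Fin q) :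
    (slo c d e f r n s i : ℝ) = 4 * c * (s : ℝ) ^ 3
      + (12 * c * ((n : ℝ) + r i) + 3 * d i) * (s : ℝ) ^ 2
      + (12 * c * ((n : ℝ) + r i) ^ 2 + 6 * d i * ((n : ℝ) + r i) + 2 * e i) * s
      + (slo c d e f r n 0 i : ℝ) := by
  unfold slo dqua
  push_cast
  ring

theorem sum_slo {q : ℕ} (c : ℕ) (d e f r a : Fin q → ℤ) (n : ℤ) (s : ℕ) :
    ∑ i, (a i : ℝ) * (slo c d e f r n s i : ℝ) = 4 * c * (∑ i, (a i : ℝ)) * (s : ℝ) ^ 3
      + (∑ i, (a i : ℝ) * (12 * c * ((n : ℝ) + r i) + 3 * d i)) * (s : ℝ) ^ 2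
      + (∑ i, (a i : ℝ) * (12 * c * ((n : ℝ) + r i) ^ 2 + 6 * d i * ((n : ℝ) + r i) + 2 * e i)) * s
      + ∑ i, (a i : ℝ) * (slo c d e f r n 0 i : ℝ) := by
  simp only [Finset.mul_sum, Finset.sum_mul]
  rw [← sum_add_distrib, ← sum_add_distrib, ← sum_add_distrib]
  refine sum_congr rfl fun i _ => ?_
  rw [slo_real]
  ring

/-- (W2) on one block. -/
theorem block_quad (h2 : W2Stmt) (m sb : ℕ) (hm : 2 * m ≤ sb) (t2 t1 t0 : ℝ)
    (h : ∀ k : ℕ, 1 ≤ k → k < 2 ^ m → (2 : ℝ) ^ m / 2 ^ sb ≤ nn (2 * k * t2)) :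
    ‖∑ s ∈ range (2 ^ sb), ee (t2 * (s : ℝ) ^ 2 + t1 * s + t0)‖ ^ 2 ≤
      8 * (2 ^ sb) ^ 2 * (1 / 2) ^ m := by
  have key := h2 t2 t1 t0 (2 ^ sb) (2 ^ m) 1 ((2 : ℝ) ^ m / 2 ^ sb) Nat.one_le_two_pow
    Nat.one_le_two_pow le_rfl (by positivity) (fun k hk1 hk2 => h k hk1 hk2) (2 ^ sb) le_rfl
  refine key.trans ?_
  push_cast
  have e1 : (1 : ℝ) / (2 ^ m / 2 ^ sb * 2 ^ sb) = (1 / 2) ^ m := by
    rw [one_div_pow]
    field_simp
  have e2 : (6 : ℝ) * 1 / 2 ^ m = 6 * (1 / 2) ^ m := by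
    rw [one_div_pow]
    ring
  have e3 : (2 : ℝ) ^ m / 2 ^ sb ≤ (1 / 2) ^ m := by
    rw [one_div_pow, div_le_div_iff₀ (by positivity) (by positivity), one_mul, ← pow_add]
    exact pow_le_pow_right₀ (by norm_num) (by omega)
  rw [e1, e2]
  have : (0 : ℝ) ≤ (2 ^ sb) ^ 2 := by positivity
  nlinarith

theorem abs_sum_le {q : ℕ} (a x : Fin q → ℤ) (A X : ℤ) (hA : 0 ≤ A) (ha : ∀ i, |a i| ≤ A)
    (hx : ∀ i, |x i| ≤ X) : |∑ i, a i * x i| ≤ q * (A * X) := by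
  refine (Finset.abs_sum_le_sum_abs _ _).trans ?_
  have : ∑ i : Fin q, |a i * x i| ≤ ∑ _i : Fin q, A * X := by
    refine Finset.sum_le_sum fun i _ => ?_
    rw [abs_mul]
    exact mul_le_mul (ha i) (hx i) (abs_nonneg _) hA
  refine this.trans ?_
  simp

/-- On a block which is not bad the numbers `2 k t2` are far from the integers. -/
theorem quad_far {q : ℕ} (c L g9 p v uf sb κh κt ED D Cf : ℕ) (n : ℤ) (hv : v ≤ uf)
    (hp : 1 ≤ p) (hq : q ≤ 2 ^ p) (hqC : q * Cf ≤ 2 ^ p)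
    (hB : 4 * 4 ^ (L + g9) * (24 * c + 3 * Cf) ≤ 2 ^ p)
    (hexp : κh + κt + ED + sb + (20 * q + 20) * p ≤ uf) (hD : D ≤ 2 ^ ED)
    (hbad : ¬ Bad2 q c L g9 p v uf sb κh κt D n)
    (d h t r : Fin q → ℤ) (hd : ∀ i, |d i| ≤ Cf) (hh : ∀ i, |h i| ≤ 2 ^ κh)
    (ht : ∀ i, |t i| ≤ 2 ^ κt) (hr : ∀ i, r i = h i + D * t i) (is : Fin q)
    (K : ℤ) (hK : |K| ≤ 2 * 4 ^ (L + g9)) (hK2 : ¬ (2 : ℤ) ^ L ∣ K)
    (τ : ℕ) (hτ1 : 1 ≤ τ) (hτ2 : τ < 2 ^ ((2 * q + 2) * p)) (a : Fin q → ℤ)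
    (ha : ∀ i, |a i| ≤ 2 ^ ((2 * q + 3) * p)) (k : ℕ) (hk1 : 1 ≤ k)
    (hk2 : k < 2 ^ ((4 * q + 3) * p)) :
    (2 : ℝ) ^ ((4 * q + 3) * p) / 2 ^ sb ≤ nn (2 * k * ((τ : ℝ) *
      ((∑ i, (a i : ℝ) * (12 * c * ((n : ℝ) + r i) + 3 * d i)) / 2 ^ v
        + (K : ℝ) * (12 * c * ((n : ℝ) + r is) + 3 * d is) / 2 ^ (uf + L)))) := by
  obtain ⟨w, hw⟩ : ∃ w, w = q * p := ⟨_, rfl⟩
  have x1 : (4 * q + 3) * p = 4 * w + 3 * p := by rw [hw]; ring
  have x2 : (4 * q + 4) * p = 4 * w + 4 * p := by rw [hw]; ring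
  have x3 : (2 * q + 2) * p = 2 * w + 2 * p := by rw [hw]; ring
  have x4 : (2 * q + 3) * p = 2 * w + 3 * p := by rw [hw]; ring
  have x5 : (2 * q + 4) * p = 2 * w + 4 * p := by rw [hw]; ring
  have x6 : (20 * q + 20) * p = 20 * w + 20 * p := by rw [hw]; ring
  have hqZ : (q : ℤ) ≤ 2 ^ p := by exact_mod_cast hq
  have hqCZ : (q : ℤ) * Cf ≤ 2 ^ p := by exact_mod_cast hqC
  have pw : ∀ x : ℕ, (0 : ℤ) < 2 ^ x := fun x => by positivity
  have bA : |∑ i, a i| ≤ (2 : ℤ) ^ ((2 * q + 4) * p) := by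
    have := abs_sum_le a (fun _ => 1) _ 1 (pw _).le ha (fun _ => by simp)
    simp only [mul_one] at this
    refine this.trans ?_
    rw [x5, x4, show 2 * w + 4 * p = p + (2 * w + 3 * p) by ring, pow_add 2 p]
    exact mul_le_mul_of_nonneg_right hqZ (pw _).le
  have bX : ∀ (x : Fin q → ℤ) (X : ℕ), (∀ i, |x i| ≤ 2 ^ X) →
      |∑ i, a i * x i| ≤ (2 : ℤ) ^ (X + (2 * q + 4) * p) := by
    intro x X hx
    refine (abs_sum_le a x _ _ (pw _).le ha hx).trans ?_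
    rw [x5, x4, show X + (2 * w + 4 * p) = p + (2 * w + 3 * p + X) by ring, pow_add 2 p,
      pow_add 2 (2 * w + 3 * p) X]
    exact mul_le_mul_of_nonneg_right hqZ (mul_pos (pw _) (pw _)).le
  have bD : |∑ i, a i * d i| ≤ (2 : ℤ) ^ ((2 * q + 4) * p) := by
    refine (abs_sum_le a d _ _ (pw _).le ha hd).trans ?_
    rw [x5, x4, show 2 * w + 4 * p = p + (2 * w + 3 * p) by ring, pow_add 2 p]
    have := mul_le_mul_of_nonneg_right hqCZ (pw (2 * w + 3 * p)).le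
    linarith
  have hns : ¬ small (uf + L) ((2 : ℤ) ^ (uf + L + (4 * q + 4) * p - sb))
      (2 * k * τ * (2 ^ (uf + L - v) * (12 * c * (n * (∑ i, a i) + (∑ i, a i * h i)
        + D * (∑ i, a i * t i)) + 3 * (∑ i, a i * d i)) + 12 * c * K * n)) :=
    fun hs => hbad ⟨k, τ, ∑ i, a i, K, ∑ i, a i * h i, ∑ i, a i * t i, ∑ i, a i * d i, hk1, hk2,
      hτ1, hτ2, bA, hK, hK2, bX h κh hh, bX t κt ht, bD, hs⟩
  have hfar := nn_of_not_small hns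
  -- the real number
  set Er : ℝ := 2 * k * τ * K * (12 * c * r is + 3 * d is) / 2 ^ (uf + L) with hEr
  have hid : 2 * k * ((τ : ℝ) *
      ((∑ i, (a i : ℝ) * (12 * c * ((n : ℝ) + r i) + 3 * d i)) / 2 ^ v
        + (K : ℝ) * (12 * c * ((n : ℝ) + r is) + 3 * d is) / 2 ^ (uf + L))) =
      ((2 * k * τ * (2 ^ (uf + L - v) * (12 * c * (n * (∑ i, a i) + (∑ i, a i * h i)
        + D * (∑ i, a i * t i)) + 3 * (∑ i, a i * d i)) + 12 * c * K * n) : ℤ) : ℝ)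
        / 2 ^ (uf + L) + Er := by
    have e1 : (∑ i, (a i : ℝ) * (12 * c * ((n : ℝ) + r i) + 3 * d i)) =
        12 * c * ((n : ℝ) * (∑ i, (a i : ℝ)) + (∑ i, (a i : ℝ) * h i)
        + D * (∑ i, (a i : ℝ) * t i)) + 3 * (∑ i, (a i : ℝ) * d i) := by
      simp only [mul_add, Finset.mul_sum]
      rw [← sum_add_distrib, ← sum_add_distrib, ← sum_add_distrib]
      refine sum_congr rfl fun i _ => ?_
      rw [hr i]
      push_cast
      ring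
    have e2 : (2 : ℝ) ^ (uf + L) = 2 ^ (uf + L - v) * 2 ^ v := by
      rw [← pow_add]
      congr 1
      omega
    rw [e1, hEr]
    push_cast
    rw [e2]
    have h3 : (2 : ℝ) ^ v ≠ 0 := by positivity
    have h4 : (2 : ℝ) ^ (uf + L - v) ≠ 0 := by positivity
    field_simp
    ring
  rw [hid]
  have hI : |2 * (k : ℤ) * τ * K * (12 * c * r is + 3 * d is)| * 2 ^ sb ≤ 2 ^ (uf + L) := by
    have k1 : (k : ℤ) ≤ 2 ^ (4 * w + 3 * p) := by
      rw [x1] at hk2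
      exact_mod_cast hk2.le
    have t1 : (τ : ℤ) ≤ 2 ^ (2 * w + 2 * p) := by
      rw [x3] at hτ2
      exact_mod_cast hτ2.le
    have hDZ : (D : ℤ) ≤ 2 ^ ED := by exact_mod_cast hD
    have r1 : |r is| ≤ 2 * 2 ^ (κh + κt + ED) := by
      rw [hr is]
      refine (abs_add_le _ _).trans ?_
      rw [abs_mul, abs_of_nonneg (Int.natCast_nonneg D)]
      have y1 : |h is| ≤ 2 ^ (κh + κt + ED) :=
        (hh is).trans (pow_le_pow_right₀ (by norm_num) (by omega))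
      have y2 : (D : ℤ) * |t is| ≤ 2 ^ (κh + κt + ED) := by
        calc (D : ℤ) * |t is| ≤ 2 ^ ED * 2 ^ κt :=
              mul_le_mul hDZ (ht is) (abs_nonneg _) (pw _).le
          _ = 2 ^ (ED + κt) := by rw [pow_add]
          _ ≤ _ := pow_le_pow_right₀ (by norm_num) (by omega)
      linarith
    have hY : |12 * (c : ℤ) * r is + 3 * d is| ≤ (24 * c + 3 * Cf) * 2 ^ (κh + κt + ED) := by
      refine (abs_add_le _ _).trans ?_
      have z1 : |12 * (c : ℤ) * r is| = 12 * c * |r is| := by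
        rw [abs_mul, abs_of_nonneg (by positivity : (0 : ℤ) ≤ 12 * c)]
      have z2 : |3 * d is| = 3 * |d is| := by
        rw [abs_mul, abs_of_nonneg (by norm_num : (0 : ℤ) ≤ 3)]
      rw [z1, z2]
      have y1 : 12 * (c : ℤ) * |r is| ≤ 12 * c * (2 * 2 ^ (κh + κt + ED)) :=
        mul_le_mul_of_nonneg_left r1 (by positivity)
      have y2 : (Cf : ℤ) ≤ Cf * 2 ^ (κh + κt + ED) :=
        le_mul_of_one_le_right (by positivity) (one_le_pow₀ (by norm_num))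
      have y3 := hd is
      linarith
    have hBZ : 4 * 4 ^ (L + g9) * (24 * (c : ℤ) + 3 * Cf) ≤ 2 ^ p := by exact_mod_cast hB
    rw [abs_mul, abs_mul, abs_of_nonneg (by positivity : (0 : ℤ) ≤ 2 * k * τ)]
    calc 2 * (k : ℤ) * τ * |K| * |12 * (c : ℤ) * r is + 3 * d is| * 2 ^ sb
        ≤ 2 * 2 ^ (4 * w + 3 * p) * 2 ^ (2 * w + 2 * p) * (2 * 4 ^ (L + g9)) *
          ((24 * c + 3 * Cf) * 2 ^ (κh + κt + ED)) * 2 ^ sb := by gcongr
      _ = (4 * 4 ^ (L + g9) * (24 * (c : ℤ) + 3 * Cf)) *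
          (2 ^ (4 * w + 3 * p) * 2 ^ (2 * w + 2 * p) * 2 ^ (κh + κt + ED) * 2 ^ sb) := by ring
      _ ≤ 2 ^ p * (2 ^ (4 * w + 3 * p) * 2 ^ (2 * w + 2 * p) * 2 ^ (κh + κt + ED) * 2 ^ sb) :=
          mul_le_mul_of_nonneg_right hBZ (by positivity)
      _ = 2 ^ (p + (4 * w + 3 * p + (2 * w + 2 * p) + (κh + κt + ED) + sb)) := by ring
      _ ≤ 2 ^ (uf + L) := pow_le_pow_right₀ (by norm_num) (by omega)
  have hErb : |Er| * 2 ^ sb ≤ 1 := by
    have hI' : |2 * (k : ℝ) * τ * K * (12 * c * r is + 3 * d is)| * 2 ^ sb ≤ 2 ^ (uf + L) := by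
      exact_mod_cast hI
    rw [hEr, abs_div, abs_of_pos (by positivity : (0 : ℝ) < 2 ^ (uf + L)), div_mul_eq_mul_div,
      div_le_one (by positivity)]
    exact hI'
  set Z : ℝ := ((2 * k * τ * (2 ^ (uf + L - v) * (12 * c * (n * (∑ i, a i) + (∑ i, a i * h i)
        + D * (∑ i, a i * t i)) + 3 * (∑ i, a i * d i)) + 12 * c * K * n) : ℤ) : ℝ) with hZ
  have g1 : nn (Z / 2 ^ (uf + L)) ≤ nn (Z / 2 ^ (uf + L) + Er) + |Er| := by
    have := nn_sub_le (Z / 2 ^ (uf + L) + Er) Er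
    rw [add_sub_cancel_right] at this
    linarith [nn_le_abs Er]
  have g2 : (((2 : ℤ) ^ (uf + L + (4 * q + 4) * p - sb) : ℤ) : ℝ) / 2 ^ (uf + L) =
      2 ^ ((4 * q + 4) * p) / 2 ^ sb := by
    push_cast
    rw [div_eq_div_iff (by positivity) (by positivity), ← pow_add, ← pow_add]
    congr 1
    omega
  rw [g2] at hfar
  have g3 : (2 : ℝ) * 2 ^ ((4 * q + 3) * p) ≤ 2 ^ ((4 * q + 4) * p) := by
    rw [← pow_succ']
    exact pow_le_pow_right₀ (by norm_num) (by omega)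
  have g4 : (1 : ℝ) ≤ 2 ^ ((4 * q + 3) * p) := one_le_pow₀ (by norm_num)
  have g5 : |Er| ≤ 1 / 2 ^ sb := by
    rw [le_div_iff₀ (by positivity)]
    exact hErb
  have g6 : (2 : ℝ) ^ ((4 * q + 3) * p) / 2 ^ sb ≤
      2 ^ ((4 * q + 4) * p) / 2 ^ sb - 1 / 2 ^ sb := by
    rw [← sub_div]
    exact div_le_div_of_nonneg_right (by linarith) (by positivity)
  linarith

theorem div_le_half {x B : ℝ} {X v : ℕ} (h : x * 2 ^ X ≤ B * 2 ^ v) :
    x / 2 ^ v ≤ B * (1 / 2) ^ X := by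
  rw [div_le_iff₀ (by positivity), one_div_pow, mul_one_div, div_mul_eq_mul_div,
    le_div_iff₀ (by positivity)]
  exact h

/-- The exponential sum on a block which is not bad. -/
theorem block_bound {q : ℕ} (h2 : W2Stmt) (c L g9 p v uf sb κh κt ED D Cf : ℕ) (n : ℤ)
    (hv : v ≤ uf)
    (hp : 1 ≤ p) (hq : q ≤ 2 ^ p) (hqC : q * Cf ≤ 2 ^ p)
    (hB : 4 * 4 ^ (L + g9) * (24 * c + 3 * Cf) ≤ 2 ^ p)
    (hexp : κh + κt + ED + sb + (20 * q + 20) * p ≤ uf) (hD : D ≤ 2 ^ ED)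
    (hbad : ¬ Bad2 q c L g9 p v uf sb κh κt D n)
    (d e f h t r : Fin q → ℤ) (hd : ∀ i, |d i| ≤ Cf) (hh : ∀ i, |h i| ≤ 2 ^ κh)
    (ht : ∀ i, |t i| ≤ 2 ^ κt) (hr : ∀ i, r i = h i + D * t i) (is : Fin q)
    (K : ℤ) (hK : |K| ≤ 2 * 4 ^ (L + g9)) (hK2 : ¬ (2 : ℤ) ^ L ∣ K)
    (τ : ℕ) (hτ1 : 1 ≤ τ) (hτ2 : τ < 2 ^ ((2 * q + 2) * p)) (a : Fin q → ℤ)
    (ha : ∀ i, |a i| ≤ 2 ^ ((2 * q + 3) * p)) (hsb : 2 * ((4 * q + 3) * p) ≤ sb)
    (hcub : ∑ i, a i = 0 ∨ 3 * sb + (6 * q + 7) * p ≤ v)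
    (hE : 3 * sb + (4 * q + 3) * p ≤ uf) :
    ‖∑ s ∈ range (2 ^ sb), ee ((τ : ℝ) * ((∑ i, (a i : ℝ) * (slo c d e f r n s i : ℝ)) / 2 ^ v +
        (K : ℝ) * (slo c d e f r n s is : ℝ) / 2 ^ (uf + L)))‖ ≤
      (3 + 7 * (4 * c + 8 * c * 4 ^ (L + g9))) * (1 / 2) ^ ((2 * q + 1) * p) * 2 ^ sb := by
  obtain ⟨w, hw⟩ : ∃ w, w = q * p := ⟨_, rfl⟩
  have x1 : (4 * q + 3) * p = 4 * w + 3 * p := by rw [hw]; ring
  have x3 : (2 * q + 2) * p = 2 * w + 2 * p := by rw [hw]; ring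
  have x4 : (2 * q + 3) * p = 2 * w + 3 * p := by rw [hw]; ring
  have x7 : (2 * q + 1) * p = 2 * w + p := by rw [hw]; ring
  have x8 : (6 * q + 7) * p = 6 * w + 7 * p := by rw [hw]; ring
  set t2 : ℝ := (τ : ℝ) *
      ((∑ i, (a i : ℝ) * (12 * c * ((n : ℝ) + r i) + 3 * d i)) / 2 ^ v
        + (K : ℝ) * (12 * c * ((n : ℝ) + r is) + 3 * d is) / 2 ^ (uf + L)) with ht2
  set t1 : ℝ := (τ : ℝ) *
      ((∑ i, (a i : ℝ) * (12 * c * ((n : ℝ) + r i) ^ 2 + 6 * d i * ((n : ℝ) + r i) + 2 * e i))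
        / 2 ^ v
        + (K : ℝ) * (12 * c * ((n : ℝ) + r is) ^ 2 + 6 * d is * ((n : ℝ) + r is) + 2 * e is)
        / 2 ^ (uf + L)) with ht1
  set t0 : ℝ := (τ : ℝ) * ((∑ i, (a i : ℝ) * (slo c d e f r n 0 i : ℝ)) / 2 ^ v +
        (K : ℝ) * (slo c d e f r n 0 is : ℝ) / 2 ^ (uf + L)) with ht0
  set y : ℕ → ℝ := fun s => (τ : ℝ) * (4 * c * (∑ i, (a i : ℝ)) * (s : ℝ) ^ 3) / 2 ^ v +
        (τ : ℝ) * (K * (4 * c * (s : ℝ) ^ 3)) / 2 ^ (uf + L) with hy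
  have hphase : ∀ s : ℕ, (τ : ℝ) * ((∑ i, (a i : ℝ) * (slo c d e f r n s i : ℝ)) / 2 ^ v +
        (K : ℝ) * (slo c d e f r n s is : ℝ) / 2 ^ (uf + L)) =
      (t2 * (s : ℝ) ^ 2 + t1 * s + t0) + y s := by
    intro s
    rw [sum_slo, slo_real c d e f r n s is, ht2, ht1, ht0, hy]
    ring
  have hQ : ‖∑ s ∈ range (2 ^ sb), ee (t2 * (s : ℝ) ^ 2 + t1 * s + t0)‖ ≤
      3 * (1 / 2) ^ ((2 * q + 1) * p) * 2 ^ sb := by
    have key := block_quad h2 ((4 * q + 3) * p) sb hsb t2 t1 t0 (fun k hk1 hk2 =>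
      quad_far c L g9 p v uf sb κh κt ED D Cf n hv hp hq hqC hB hexp hD hbad d h t r hd hh ht hr
        is K hK hK2 τ hτ1 hτ2 a ha k hk1 hk2)
    have h3 : ((1 : ℝ) / 2) ^ ((4 * q + 3) * p) ≤ ((1 / 2) ^ ((2 * q + 1) * p)) ^ 2 := by
      rw [← pow_mul]
      exact pow_le_pow_of_le_one (by norm_num) (by norm_num) (by omega)
    have h4 : ‖∑ s ∈ range (2 ^ sb), ee (t2 * (s : ℝ) ^ 2 + t1 * s + t0)‖ ^ 2 ≤
        (3 * (1 / 2) ^ ((2 * q + 1) * p) * 2 ^ sb) ^ 2 := by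
      refine key.trans ?_
      rw [mul_pow, mul_pow]
      have h5 : (0 : ℝ) ≤ (2 ^ sb) ^ 2 := by positivity
      have h6 : (0 : ℝ) ≤ ((1 / 2) ^ ((2 * q + 1) * p)) ^ 2 := by positivity
      nlinarith [mul_le_mul_of_nonneg_right h3 h5, mul_nonneg h5 h6]
    exact (sq_le_sq₀ (norm_nonneg _) (by positivity)).mp h4
  have hyb : ∀ s : ℕ, s < 2 ^ sb → |y s| ≤
      (4 * c + 8 * c * 4 ^ (L + g9)) * (1 / 2) ^ ((2 * q + 1) * p) := by
    intro s hs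
    have hs' : (s : ℝ) ≤ 2 ^ sb := by exact_mod_cast hs.le
    have hs3 : (s : ℝ) ^ 3 ≤ 2 ^ (3 * sb) := by
      rw [mul_comm 3 sb, pow_mul]
      exact pow_le_pow_left₀ (by positivity) hs' 3
    have hτ' : (τ : ℝ) ≤ 2 ^ (2 * w + 2 * p) := by
      rw [x3] at hτ2
      exact_mod_cast hτ2.le
    have hAs : |∑ i, (a i : ℝ)| ≤ 2 ^ (2 * w + 4 * p) := by
      have h5 := abs_sum_le a (fun _ => 1) _ 1 (by positivity) ha (fun _ => by simp)
      simp only [mul_one] at h5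
      have hqZ : (q : ℤ) ≤ 2 ^ p := by exact_mod_cast hq
      have h6 : |∑ i, a i| ≤ (2 : ℤ) ^ (2 * w + 4 * p) := by
        refine h5.trans ?_
        rw [x4, show 2 * w + 4 * p = p + (2 * w + 3 * p) by ring, pow_add 2 p]
        exact mul_le_mul_of_nonneg_right hqZ (by positivity)
      exact_mod_cast h6
    have hKR : |(K : ℝ)| ≤ 2 * 4 ^ (L + g9) := by exact_mod_cast hK
    have c0 : (0 : ℝ) ≤ c := by positivity
    refine (abs_add_le _ _).trans ?_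
    rw [add_mul]
    refine add_le_add ?_ ?_
    · rw [abs_div, abs_of_pos (by positivity : (0 : ℝ) < 2 ^ v)]
      apply div_le_half
      rcases hcub with h0 | h0
      · have h1 : (∑ i, (a i : ℝ)) = 0 := by exact_mod_cast h0
        rw [h1]
        simp only [mul_zero, zero_mul, abs_zero]
        positivity
      · rw [abs_mul, abs_mul, abs_mul, abs_of_nonneg (by positivity : (0 : ℝ) ≤ τ),
          abs_of_nonneg (by positivity : (0 : ℝ) ≤ 4 * c),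
          abs_of_nonneg (by positivity : (0 : ℝ) ≤ (s : ℝ) ^ 3), x7]
        calc (τ : ℝ) * (4 * c * |∑ i, (a i : ℝ)| * (s : ℝ) ^ 3) * 2 ^ (2 * w + p)
            ≤ 2 ^ (2 * w + 2 * p) * (4 * c * 2 ^ (2 * w + 4 * p) * 2 ^ (3 * sb))
              * 2 ^ (2 * w + p) := by gcongr
          _ = 4 * c * 2 ^ (2 * w + 2 * p + (2 * w + 4 * p) + 3 * sb + (2 * w + p)) := by ring
          _ ≤ 4 * c * 2 ^ v := by
            refine mul_le_mul_of_nonneg_left ?_ (by positivity)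
            exact pow_le_pow_right₀ (by norm_num) (by omega)
    · rw [abs_div, abs_of_pos (by positivity : (0 : ℝ) < 2 ^ (uf + L))]
      apply div_le_half
      rw [abs_mul, abs_mul, abs_of_nonneg (by positivity : (0 : ℝ) ≤ τ),
          abs_of_nonneg (by positivity : (0 : ℝ) ≤ 4 * c * (s : ℝ) ^ 3), x7]
      calc (τ : ℝ) * (|(K : ℝ)| * (4 * c * (s : ℝ) ^ 3)) * 2 ^ (2 * w + p)
            ≤ 2 ^ (2 * w + 2 * p) * (2 * 4 ^ (L + g9) * (4 * c * 2 ^ (3 * sb)))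
              * 2 ^ (2 * w + p) := by gcongr
          _ = 8 * c * 4 ^ (L + g9) * 2 ^ (2 * w + 2 * p + 3 * sb + (2 * w + p)) := by ring
          _ ≤ 8 * c * 4 ^ (L + g9) * 2 ^ (uf + L) := by
            refine mul_le_mul_of_nonneg_left ?_ (by positivity)
            exact pow_le_pow_right₀ (by norm_num) (by omega)
  have hsplit : ∑ s ∈ range (2 ^ sb), ee ((τ : ℝ) *
        ((∑ i, (a i : ℝ) * (slo c d e f r n s i : ℝ)) / 2 ^ v +
        (K : ℝ) * (slo c d e f r n s is : ℝ) / 2 ^ (uf + L))) =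
      ∑ s ∈ range (2 ^ sb), ee (t2 * (s : ℝ) ^ 2 + t1 * s + t0) +
      ∑ s ∈ range (2 ^ sb), (ee ((t2 * (s : ℝ) ^ 2 + t1 * s + t0) + y s) -
        ee (t2 * (s : ℝ) ^ 2 + t1 * s + t0)) := by
    rw [← sum_add_distrib]
    refine sum_congr rfl fun s _ => ?_
    rw [hphase s]
    ring
  rw [hsplit]
  refine (norm_add_le _ _).trans ?_
  have hdiff : ‖∑ s ∈ range (2 ^ sb), (ee ((t2 * (s : ℝ) ^ 2 + t1 * s + t0) + y s) -
        ee (t2 * (s : ℝ) ^ 2 + t1 * s + t0))‖ ≤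
      7 * (4 * c + 8 * c * 4 ^ (L + g9)) * (1 / 2) ^ ((2 * q + 1) * p) * 2 ^ sb := by
    refine (norm_sum_le _ _).trans ?_
    have : ∀ s ∈ range (2 ^ sb), ‖ee ((t2 * (s : ℝ) ^ 2 + t1 * s + t0) + y s) -
        ee (t2 * (s : ℝ) ^ 2 + t1 * s + t0)‖ ≤
        7 * ((4 * c + 8 * c * 4 ^ (L + g9)) * (1 / 2) ^ ((2 * q + 1) * p)) := by
      intro s hs
      refine (ee_sub_le _ _).trans ?_
      exact mul_le_mul_of_nonneg_left (hyb s (mem_range.mp hs)) (by norm_num)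
    refine (Finset.sum_le_sum this).trans ?_
    rw [sum_const, card_range, nsmul_eq_mul]
    push_cast
    linarith
  linarith

/-- (N2), case B. -/
theorem n2b (h2 : W2Stmt) : N2BStmt := by
  classical
  intro q c L g9 Cf hq1 hc hL
  refine ⟨1 + (3 + 7 * (4 * c + 8 * c * 4 ^ (L + g9))), by positivity,
    q + q * Cf + 4 * 4 ^ (L + g9) * (24 * c + 3 * Cf) + 1, ?_⟩
  intro p hp0 v uf σ κh κt ED D hv1 hv2 hσ hE hexp hD n hcnt d e f h t r hd hh ht hr is K hK hK2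
    τ hτ1 hτ2 a ha hcase
  have hp1 : 1 ≤ p := by omega
  have hpp : p < 2 ^ p := Nat.lt_two_pow_self
  have b1 : q ≤ 2 ^ p := by
    have : q ≤ p := by
      refine le_trans ?_ hp0
      omega
    omega
  have b2 : q * Cf ≤ 2 ^ p := by
    have : q * Cf ≤ p := by
      refine le_trans ?_ hp0
      omega
    omega
  have b3 : 4 * 4 ^ (L + g9) * (24 * c + 3 * Cf) ≤ 2 ^ p := by
    have : 4 * 4 ^ (L + g9) * (24 * c + 3 * Cf) ≤ p := by
      refine le_trans ?_ hp0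
      omega
    omega
  obtain ⟨w, hw⟩ : ∃ w, w = q * p := ⟨_, rfl⟩
  have x1 : (4 * q + 3) * p = 4 * w + 3 * p := by rw [hw]; ring
  have x6 : (20 * q + 20) * p = 20 * w + 20 * p := by rw [hw]; ring
  have x7 : (2 * q + 1) * p = 2 * w + p := by rw [hw]; ring
  have x8 : (6 * q + 7) * p = 6 * w + 7 * p := by rw [hw]; ring
  have x9 : (16 * q + 12) * p = 16 * w + 12 * p := by rw [hw]; ring
  have x10 : (60 * q + 60) * p = 60 * w + 60 * p := by rw [hw]; ring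
  have x11 : (14 * q + 10) * p = 14 * w + 10 * p := by rw [hw]; ring
  have x12 : (40 * q + 26) * p = 40 * w + 26 * p := by rw [hw]; ring
  obtain ⟨X, hX⟩ : ∃ X, X = (16 * q + 12) * p := ⟨_, rfl⟩
  obtain ⟨sb, hsb⟩ : ∃ sb, sb = σ - (16 * q + 12) * p := ⟨_, rfl⟩
  rw [← hsb, ← hX] at hcnt
  have hσX : σ = X + sb := by omega
  set Ce : ℝ := 3 + 7 * (4 * c + 8 * c * 4 ^ (L + g9)) with hCe
  have hCe0 : 0 ≤ Ce := by rw [hCe]; positivity
  set P : ℕ → Prop := fun s1 => Bad2 q c L g9 p v uf sb κh κt D (n + s1 * 2 ^ sb) with hP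
  rw [hσX, pow_add, sum_blocks]
  refine (norm_sum_le _ _).trans ?_
  have hblock : ∀ i ∈ range (2 ^ X), ‖∑ j ∈ range (2 ^ sb), ee ((τ : ℝ) *
      ((∑ i', (a i' : ℝ) * (slo c d e f r n (i * 2 ^ sb + j) i' : ℝ)) / 2 ^ v +
        (K : ℝ) * (slo c d e f r n (i * 2 ^ sb + j) is : ℝ) / 2 ^ (uf + L)))‖ ≤
      (if P i then (2 : ℝ) ^ sb else 0) + Ce * (1 / 2) ^ ((2 * q + 1) * p) * 2 ^ sb := by
    intro i _
    have hpos : 0 ≤ Ce * (1 / 2) ^ ((2 * q + 1) * p) * 2 ^ sb := by positivity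
    by_cases hPi : P i
    · rw [if_pos hPi]
      refine le_add_of_le_of_nonneg ?_ hpos
      refine (norm_sum_le _ _).trans ?_
      simp only [f2_norm_ee, sum_const, card_range, nsmul_eq_mul, mul_one]
      push_cast
      exact le_rfl
    · rw [if_neg hPi, zero_add]
      have hbb := block_bound h2 c L g9 p v uf sb κh κt ED D Cf (n + i * 2 ^ sb) hv2 hp1 b1 b2 b3
        (by omega) hD hPi d e f h t r hd hh ht hr is K hK hK2 τ hτ1 hτ2 a ha (by omega)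
        (by
          rcases hcase with h0 | h0
          · exact Or.inl h0
          · right; omega) (by omega)
      refine le_trans (le_of_eq ?_) hbb
      congr 1
      refine sum_congr rfl fun j _ => ?_
      have hcast : ((n : ℤ) + (i : ℤ) * ((2 ^ sb : ℕ) : ℤ)) = n + i * 2 ^ sb := by push_cast; ring
      simp only [slo_block, hcast]
  refine (Finset.sum_le_sum hblock).trans ?_
  rw [sum_add_distrib, ← Finset.sum_filter, sum_const, nsmul_eq_mul, sum_const, card_range,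
    nsmul_eq_mul]
  have hcntR : (((range (2 ^ X)).filter P).card : ℝ) ≤ 2 ^ ((14 * q + 10) * p) := by
    exact_mod_cast hcnt
  have h7 : (2 : ℝ) ^ ((14 * q + 10) * p) * 2 ^ sb ≤
      (1 / 2) ^ ((2 * q + 1) * p) * (2 ^ X * 2 ^ sb) := by
    rw [one_div_pow, one_div_mul_eq_div, le_div_iff₀ (by positivity), ← pow_add, ← pow_add,
      ← pow_add]
    exact pow_le_pow_right₀ (by norm_num) (by omega)
  have h8 := mul_le_mul_of_nonneg_right hcntR (by positivity : (0 : ℝ) ≤ 2 ^ sb)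
  have h9 : ((2 ^ X : ℕ) : ℝ) * (Ce * (1 / 2) ^ ((2 * q + 1) * p) * 2 ^ sb) =
      Ce * ((1 / 2) ^ ((2 * q + 1) * p) * (2 ^ X * 2 ^ sb)) := by
    push_cast
    ring
  have h10 : (1 + Ce) * (1 / 2) ^ ((2 * q + 1) * p) * 2 ^ (X + sb) =
      (1 / 2) ^ ((2 * q + 1) * p) * (2 ^ X * 2 ^ sb) +
      Ce * ((1 / 2) ^ ((2 * q + 1) * p) * (2 ^ X * 2 ^ sb)) := by
    rw [pow_add 2 X sb]
    ring
  rw [h9, h10]
  exact add_le_add (h8.trans h7) le_rfl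

end Pool.Agent.H87.T4
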